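import Pool.Agent.N816.LR.Defs

/-!
# Potentials on the structure tree of a nested family
-/

set_option autoImplicit false

namespace Pool.Agent.N895.LRV

open Pool.Agent.N816.LR

/-- The immediate predecessor of `X` among the members containing the base point. -/
def IsPred {V : Type} (E : Set (Set V)) (o : V) (X Y : Set V) : Prop :=
  Y ∈ E ∧ o ∈ Y ∧ Y ⊂ X ∧ ∀ F ∈ E, o ∈ F → F ⊂ X → F ⊆ Y

/-- The set of the members of `E` containing `o` and properly contained in `X`. -/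
def Sm {V : Type} (E : Set (Set V)) (o : V) (X : Set V) : Set (Set V) :=
  {F | F ∈ E ∧ o ∈ F ∧ F ⊂ X}

theorem exists_notMem {V : Type} {E : Set (Set V)} (hE : NF E) {X : Set V} (hX : X ∈ E) :
    ∃ y, y ∉ X := by
  obtain ⟨y, hy⟩ := hE.ne _ (hE.compl X hX)
  exact ⟨y, hy⟩

theorem Sm_finite {V : Type} {E : Set (Set V)} (hE : NF E) (o : V) {X : Set V} (hX : X ∈ E) :
    (Sm E o X).Finite := by
  obtain ⟨y, hy⟩ := exists_notMem hE hX
  refine (hE.fin o y).subset ?_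
  rintro F ⟨h1, h2, h3⟩
  exact ⟨h1, h2, fun h => hy (h3.1 h)⟩

theorem chain {V : Type} {E : Set (Set V)} (hE : NF E) {o : V} {X F G : Set V} (hX : X ∈ E)
    (hF : F ∈ Sm E o X) (hG : G ∈ Sm E o X) : F ⊆ G ∨ G ⊆ F := by
  obtain ⟨y, hy⟩ := exists_notMem hE hX
  obtain ⟨h1, h2, h3⟩ := hF
  obtain ⟨k1, k2, k3⟩ := hG
  rcases hE.nested F h1 G k1 with h | h | h | h
  · exact Or.inl h
  · exact Or.inr h
  · exact absurd k2 (h h2)
  · exact absurd (k3.1 (h (fun hh => hy (h3.1 hh)))) hy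

theorem isPred_unique {V : Type} {E : Set (Set V)} {o : V} {X Y Z : Set V}
    (h : IsPred E o X Y) (h' : IsPred E o X Z) : Y = Z :=
  Set.Subset.antisymm (h'.2.2.2 Y h.1 h.2.1 h.2.2.1) (h.2.2.2 Z h'.1 h'.2.1 h'.2.2.1)

theorem mi_or_pred {V : Type} {E : Set (Set V)} (hE : NF E) {o : V} {X : Set V} (hX : X ∈ E)
    (ho : o ∈ X) : Mi E o X ∨ ∃ Y, IsPred E o X Y := by
  by_cases hS : (Sm E o X).Nonempty
  · right
    obtain ⟨Y, hY⟩ := (Sm_finite hE o hX).exists_maximal hS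
    refine ⟨Y, hY.prop.1, hY.prop.2.1, hY.prop.2.2, ?_⟩
    intro F hF hoF hFX
    rcases chain hE hX (⟨hF, hoF, hFX⟩ : F ∈ Sm E o X) hY.prop with h | h
    · exact h
    · exact hY.le_of_ge (⟨hF, hoF, hFX⟩ : F ∈ Sm E o X) h
  · left
    refine ⟨hX, ho, ?_⟩
    intro Y hY hoY hYX
    by_contra hne
    exact hS ⟨Y, hY, hoY, hYX.ssubset_of_ne hne⟩

theorem not_pred_of_mi {V : Type} {E : Set (Set V)} {o : V} {X Y : Set V}
    (h : Mi E o X) (h' : IsPred E o X Y) : False := by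
  have := h.2.2 Y h'.1 h'.2.1 h'.2.2.1.subset
  exact h'.2.2.1.ne this

theorem ncard_pred {V : Type} {E : Set (Set V)} (hE : NF E) {o : V} {X Y : Set V}
    (h : IsPred E o X Y) : (Sm E o X).ncard = (Sm E o Y).ncard + 1 := by
  have hfin := Sm_finite hE o h.1
  have hnot : Y ∉ Sm E o Y := fun hh => (ssubset_irrefl Y) hh.2.2
  rw [← Set.ncard_insert_of_notMem hnot hfin]
  congr 1
  ext F
  constructor
  · rintro ⟨h1, h2, h3⟩
    by_cases hFY : F = Y
    · exact Or.inl hFY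
    · exact Or.inr ⟨h1, h2, (h.2.2.2 F h1 h2 h3).ssubset_of_ne hFY⟩
  · rintro (rfl | ⟨h1, h2, h3⟩)
    · exact ⟨h.1, h.2.1, h.2.2.1⟩
    · exact ⟨h1, h2, h3.trans h.2.2.1⟩

open Classical in
/-- The potential, defined with fuel. -/
noncomputable def psi {V R : Type} [Group R] (E : Set (Set V)) (o : V) (cr : Set V → R)
    (τ : Set V → Set V → R) (r : Set V → R) : ℕ → Set V → R
  | 0, X => r X
  | n + 1, X => if h : ∃ Y, IsPred E o X Y then
      τ X (Classical.choose h)ᶜ * cr (Classical.choose h) * psi E o cr τ r n (Classical.choose h)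
      else r X

/-- The potential on the members containing the base point. -/
noncomputable def psi0 {V R : Type} [Group R] (E : Set (Set V)) (o : V) (cr : Set V → R)
    (τ : Set V → Set V → R) (r : Set V → R) (X : Set V) : R :=
  psi E o cr τ r (Sm E o X).ncard X

theorem psi0_mi {V R : Type} [Group R] {E : Set (Set V)} {o : V} {cr : Set V → R}
    {τ : Set V → Set V → R} {r : Set V → R} {X : Set V} (h : Mi E o X) :
    psi0 E o cr τ r X = r X := by
  unfold psi0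
  cases (Sm E o X).ncard with
  | zero => rfl
  | succ n =>
    rw [psi, dif_neg]
    rintro ⟨Y, hY⟩
    exact not_pred_of_mi h hY

theorem psi0_pred {V R : Type} [Group R] {E : Set (Set V)} (hE : NF E) {o : V} {cr : Set V → R}
    {τ : Set V → Set V → R} {r : Set V → R} {X Y : Set V} (h : IsPred E o X Y) :
    psi0 E o cr τ r X = τ X Yᶜ * cr Y * psi0 E o cr τ r Y := by
  unfold psi0
  rw [ncard_pred hE h, psi]
  have hex : ∃ Z, IsPred E o X Z := ⟨Y, h⟩
  rw [dif_pos hex]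
  have : Classical.choose hex = Y := isPred_unique (Classical.choose_spec hex) h
  rw [this]

theorem Rl_symm {V : Type} {E : Set (Set V)} (hE : NF E) {X Y : Set V} (h : Rl E X Y) :
    Rl E Y X := by
  rcases h with h | ⟨h1, h2⟩
  · exact Or.inl h.symm
  · right
    refine ⟨by rw [← compl_compl X]; exact compl_lt_compl_iff_lt.2 h1, ?_⟩
    intro F hF hYF hFX
    refine h2 Fᶜ (hE.compl F hF) (compl_lt_compl_iff_lt.2 hFX) ?_
    rw [← compl_compl Y]
    exact compl_lt_compl_iff_lt.2 hYF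

theorem Rl_of_pred {V : Type} {E : Set (Set V)} {o : V} {X F : Set V}
    (h : IsPred E o X F) : Rl E Fᶜ X := by
  right
  rw [compl_compl]
  refine ⟨h.2.2.1, ?_⟩
  intro G hG hFG hGX
  exact hFG.2 (h.2.2.2 G hG (hFG.1 h.2.1) hGX)

theorem pred_of_Rl {V : Type} {E : Set (Set V)} (hE : NF E) {o : V} {X Y : Set V} (hX : X ∈ E)
    (hY : Y ∈ E) (ho : o ∉ X) (h1 : Xᶜ ⊂ Y) (h2 : ∀ F ∈ E, Xᶜ ⊂ F → ¬ F ⊂ Y) :
    IsPred E o Y Xᶜ := by
  refine ⟨hE.compl X hX, ho, h1, ?_⟩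
  intro F hF hoF hFY
  rcases chain hE hY (⟨hF, hoF, hFY⟩ : F ∈ Sm E o Y)
    (⟨hE.compl X hX, ho, h1⟩ : Xᶜ ∈ Sm E o Y) with h | h
  · exact h
  · by_contra hne
    exact h2 F hF (h.ssubset_of_not_subset hne) hFY

theorem sub_of_Rl {V : Type} {E : Set (Set V)} (hE : NF E) {o : V} {X Y : Set V} (hX : X ∈ E)
    (hY : Y ∈ E) (hoY : o ∈ Y) (h1 : Xᶜ ⊂ Y) (h2 : ∀ F ∈ E, Xᶜ ⊂ F → ¬ F ⊂ Y)
    {F : Set V} (hF : F ∈ E) (hoF : o ∈ F) (hFX : F ⊂ X) : F ⊂ Y := by
  have key : ¬ Y ⊂ X := by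
    intro h
    obtain ⟨z, hz⟩ := exists_notMem hE hX
    exact hz (h.1 (h1.1 hz))
  rcases hE.nested F hF Y hY with h | h | h | h
  · refine h.ssubset_of_ne ?_
    rintro rfl
    exact key hFX
  · exact absurd (lt_of_le_of_lt h hFX : Y ⊂ X) key
  · exact absurd hoY (h hoF)
  · exfalso
    have hs : Rl E Y X := Rl_symm hE (Or.inr ⟨h1, h2⟩)
    have hYF : Yᶜ ⊆ F := by
      intro z hz
      by_contra hzF
      exact hz (h hzF)
    have hne : Yᶜ ≠ F := by
      rintro rfl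
      exact hoF hoY
    rcases hs with hs | ⟨_, hs⟩
    · subst hs
      obtain ⟨z, hz⟩ := exists_notMem hE hX
      exact hz (h1.1 hz)
    · exact hs F hF (hYF.ssubset_of_ne hne) hFX

theorem potential {V R : Type} [Group R] {E : Set (Set V)} (hE : NF E) (o : V) (cr : Set V → R)
    (τ : Set V → Set V → R) (hcr : ∀ X ∈ E, cr Xᶜ = (cr X)⁻¹)
    (hτ : ∀ X ∈ E, ∀ Y ∈ E, ∀ W ∈ E, Rl E X Y → Rl E Y W → Rl E X W → τ X Y * τ Y W = τ X W)
    (r : Set V → R) (hr : ∀ X Y, Mi E o X → Mi E o Y → r X = τ X Y * r Y) :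
    ∃ Ψ : Set V → R, (∀ X, Mi E o X → Ψ X = r X) ∧ (∀ X ∈ E, Ψ Xᶜ = cr X * Ψ X) ∧
      ∀ X ∈ E, ∀ Y ∈ E, Rl E X Y → Ψ X = τ X Y * Ψ Y := by
  classical
  have τself : ∀ X ∈ E, τ X X = 1 := by
    intro X hX
    have := hτ X hX X hX X hX (Or.inl rfl) (Or.inl rfl) (Or.inl rfl)
    exact mul_eq_left.1 this
  have τsymm : ∀ X ∈ E, ∀ Y ∈ E, Rl E X Y → τ X Y * τ Y X = 1 := by
    intro X hX Y hY h
    rw [hτ X hX Y hY X hX h (Rl_symm hE h) (Or.inl rfl), τself X hX]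
  let p := psi0 E o cr τ r
  let Ψ : Set V → R := fun X => if o ∈ X then p X else cr Xᶜ * p Xᶜ
  have Ψin : ∀ X, o ∈ X → Ψ X = p X := fun X h => if_pos h
  have Ψout : ∀ X, o ∉ X → Ψ X = cr Xᶜ * p Xᶜ := fun X h => if_neg h
  refine ⟨Ψ, ?_, ?_, ?_⟩
  · intro X hX
    rw [Ψin X hX.2.1]
    exact psi0_mi hX
  · intro X hX
    by_cases ho : o ∈ X
    · rw [Ψin X ho, Ψout Xᶜ (fun h => h ho), compl_compl]
    · rw [Ψout X ho, Ψin Xᶜ ho, hcr X hX, mul_inv_cancel_left]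
  · -- the case where the base point is outside the first set
    have main : ∀ X ∈ E, ∀ Y ∈ E, o ∉ X → Xᶜ ⊂ Y → (∀ F ∈ E, Xᶜ ⊂ F → ¬ F ⊂ Y) →
        Ψ Y = τ Y X * Ψ X := by
      intro X hX Y hY ho h1 h2
      have hP := pred_of_Rl hE hX hY ho h1 h2
      rw [Ψout X ho, Ψin Y (h1.1 ho)]
      have := psi0_pred (cr := cr) (τ := τ) (r := r) hE hP
      rw [compl_compl] at this
      rw [← mul_assoc]
      exact this
    intro X hX Y hY h
    rcases h with h | ⟨h1, h2⟩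
    · subst h
      rw [τself X hX, one_mul]
    · have hR : Rl E X Y := Or.inr ⟨h1, h2⟩
      by_cases hoX : o ∈ X
      · by_cases hoY : o ∈ Y
        · -- both contain the base point
          have hRs := Rl_symm hE hR
          rcases hRs with hRs' | ⟨h3, h4⟩
          · subst hRs'
            rw [τself _ hX, one_mul]
          · rcases mi_or_pred hE hX hoX with hM | ⟨F, hF⟩
            · have hM' : Mi E o Y := by
                refine ⟨hY, hoY, ?_⟩
                intro Z hZ hoZ hZY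
                by_contra hne
                have h5 : Z ⊂ X :=
                  sub_of_Rl hE hY hX hoX h3 h4 hZ hoZ (hZY.ssubset_of_ne hne)
                exact h5.ne (hM.2.2 Z hZ hoZ h5.subset)
              rw [Ψin X hoX, Ψin Y hoY]
              have e1 : p X = r X := psi0_mi hM
              have e2 : p Y = r Y := psi0_mi hM'
              rw [e1, e2]
              exact hr X Y hM hM'
            · have hF' : IsPred E o Y F := by
                refine ⟨hF.1, hF.2.1, sub_of_Rl hE hX hY hoY h1 h2 hF.1 hF.2.1 hF.2.2.1, ?_⟩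
                intro G hG hoG hGY
                exact hF.2.2.2 G hG hoG (sub_of_Rl hE hY hX hoX h3 h4 hG hoG hGY)
              rw [Ψin X hoX, Ψin Y hoY]
              have e1 : p X = τ X Fᶜ * cr F * p F := psi0_pred hE hF
              have e2 : p Y = τ Y Fᶜ * cr F * p F := psi0_pred hE hF'
              have e3 := hτ X hX Y hY Fᶜ (hE.compl F hF.1) hR (Rl_symm hE (Rl_of_pred hF'))
                (Rl_symm hE (Rl_of_pred hF))
              rw [e1, e2, ← e3]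
              simp only [mul_assoc]
        · -- the base point is outside `Y`
          have h5 := Rl_symm hE hR
          rcases h5 with h5 | ⟨h3, h4⟩
          · subst h5
            exact absurd hoX hoY
          · exact main Y hY X hX hoY h3 h4
      · have h5 := main X hX Y hY hoX h1 h2
        rw [h5, ← mul_assoc, τsymm X hX Y hY hR, one_mul]

theorem conn_aux {V : Type} {E : Set (Set V)} (hE : NF E) (P : Set V → Prop)
    (h1 : ∀ X ∈ E, P X → P Xᶜ) (h2 : ∀ X ∈ E, ∀ Y ∈ E, Rl E X Y → P X → P Y)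
    {A : Set V} (hA : A ∈ E) (hPA : P A) :
    ∀ n : ℕ, ∀ X ∈ E, A ⊆ X → {F | F ∈ E ∧ A ⊆ F ∧ F ⊂ X}.ncard ≤ n → P X := by
  intro n
  induction n with
  | zero =>
    intro X hX hAX hn
    by_cases hne : A = X
    · rwa [← hne]
    · exfalso
      have hfin : {F | F ∈ E ∧ A ⊆ F ∧ F ⊂ X}.Finite := by
        obtain ⟨x, hx⟩ := hE.ne A hA
        obtain ⟨y, hy⟩ := exists_notMem hE hX
        refine (hE.fin x y).subset ?_
        rintro F ⟨k1, k2, k3⟩
        exact ⟨k1, k2 hx, fun h => hy (k3.1 h)⟩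
      have := (Set.ncard_eq_zero hfin).1 (Nat.le_zero.1 hn)
      have hmem : A ∈ {F | F ∈ E ∧ A ⊆ F ∧ F ⊂ X} :=
        ⟨hA, subset_rfl, hAX.ssubset_of_ne hne⟩
      rw [this] at hmem
      exact hmem
  | succ n ih =>
    intro X hX hAX hn
    by_cases hne : A = X
    · rwa [← hne]
    · have hfin : {F | F ∈ E ∧ A ⊆ F ∧ F ⊂ X}.Finite := by
        obtain ⟨x, hx⟩ := hE.ne A hA
        obtain ⟨y, hy⟩ := exists_notMem hE hX
        refine (hE.fin x y).subset ?_
        rintro F ⟨k1, k2, k3⟩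
        exact ⟨k1, k2 hx, fun h => hy (k3.1 h)⟩
      have hmem : A ∈ {F | F ∈ E ∧ A ⊆ F ∧ F ⊂ X} :=
        ⟨hA, subset_rfl, hAX.ssubset_of_ne hne⟩
      obtain ⟨B, hB⟩ := hfin.exists_maximal ⟨A, hmem⟩
      obtain ⟨hB1, hB2, hB3⟩ := hB.prop
      have hlt : {F | F ∈ E ∧ A ⊆ F ∧ F ⊂ B} ⊂ {F | F ∈ E ∧ A ⊆ F ∧ F ⊂ X} := by
        refine ⟨?_, ?_⟩
        · rintro F ⟨k1, k2, k3⟩
          exact ⟨k1, k2, k3.trans hB3⟩
        · intro hsub
          exact (ssubset_irrefl B) (hsub hB.prop).2.2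
      have hc := Set.ncard_lt_ncard hlt hfin
      have hPB : P B := ih B hB1 hB2 (by omega)
      refine h2 Bᶜ (hE.compl B hB1) X hX ?_ (h1 B hB1 hPB)
      right
      rw [compl_compl]
      refine ⟨hB3, ?_⟩
      intro F hF hBF hFX
      exact hBF.2 (hB.le_of_ge (⟨hF, hB2.trans hBF.1, hFX⟩ :
        F ∈ {F | F ∈ E ∧ A ⊆ F ∧ F ⊂ X}) hBF.1)

theorem conn {V : Type} {E : Set (Set V)} (hE : NF E) (P : Set V → Prop) (X₀ : Set V)
    (h₀ : X₀ ∈ E) (hP : P X₀) (h1 : ∀ X ∈ E, P X → P Xᶜ)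
    (h2 : ∀ X ∈ E, ∀ Y ∈ E, Rl E X Y → P X → P Y) : ∀ X ∈ E, P X := by
  have key : ∀ A ∈ E, P A → ∀ X ∈ E, A ⊆ X → P X := fun A hA hPA X hX hAX =>
    conn_aux hE P h1 h2 hA hPA _ X hX hAX le_rfl
  intro X hX
  rcases hE.nested X₀ h₀ X hX with h | h | h | h
  · exact key X₀ h₀ hP X hX h
  · have := key X₀ᶜ (hE.compl _ h₀) (h1 _ h₀ hP) Xᶜ (hE.compl _ hX)
      (Set.compl_subset_compl.2 h)
    have := h1 _ (hE.compl _ hX) this
    rwa [compl_compl] at this
  · have := key X₀ h₀ hP Xᶜ (hE.compl _ hX) h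
    have := h1 _ (hE.compl _ hX) this
    rwa [compl_compl] at this
  · exact key X₀ᶜ (hE.compl _ h₀) (h1 _ h₀ hP) X hX h

end Pool.Agent.N895.LRV
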